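import Pool.Agent.K1H95.EO.Stm

set_option autoImplicit false

/-!
# Pieces REACH and SWAP of the project EO
-/

open Cardinal

namespace Pool.Agent.K1H21.EO

open Pool.Agent.K1H95.EO

/-- points reached after `n` steps -/
def D {V : Type} (r : V → V → Prop) (v : V) : ℕ → Set V
  | 0 => {v}
  | n + 1 => ⋃ u ∈ D r v n, {w | r u w}

theorem card_D {V : Type} (r : V → V → Prop) (v : V) (κ : Cardinal.{0}) (hκ : ℵ₀ ≤ κ)
    (h : ∀ w : V, #{u : V | r w u} ≤ κ) (n : ℕ) : #(D r v n) ≤ κ := by
  induction n with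
  | zero =>
    change #({v} : Set V) ≤ κ
    rw [mk_singleton]
    exact one_le_aleph0.trans hκ
  | succ n ih =>
    change #(⋃ u ∈ D r v n, {w | r u w} : Set V) ≤ κ
    refine (mk_biUnion_le _ _).trans ?_
    calc #(D r v n) * ⨆ x : D r v n, #{w | r x.1 w} ≤ κ * κ :=
          mul_le_mul' ih (ciSup_le' (fun x => h x.1))
      _ = κ := mul_eq_self hκ

theorem t_REACH : S_REACH := by
  intro κ V r hκ h v
  have hsub : {u : V | Relation.ReflTransGen r v u} ⊆ ⋃ n : ℕ, D r v n := by
    intro u hu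
    have hu' : Relation.ReflTransGen r v u := hu
    induction hu' with
    | refl => exact Set.mem_iUnion.2 ⟨0, rfl⟩
    | tail hab hbc ih =>
      obtain ⟨n, hn⟩ := Set.mem_iUnion.1 (ih hab)
      refine Set.mem_iUnion.2 ⟨n + 1, ?_⟩
      exact Set.mem_biUnion hn hbc
  refine (mk_le_mk_of_subset hsub).trans ((mk_iUnion_le _).trans ?_)
  calc #ℕ * ⨆ n : ℕ, #(D r v n) ≤ κ * κ :=
        mul_le_mul' (by rw [mk_nat]; exact hκ) (ciSup_le' (fun n => card_D r v κ hκ h n))
    _ = κ := mul_eq_self hκ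

theorem t_SWAP : S_SWAP := by
  classical
  intro V X z D hz hD
  have hz' : ∀ u : V, z.symm u ∈ D ↔ u ∈ D := by
    intro u
    rw [← hz (z.symm u), RelIso.apply_symm_apply]
  let t : V → V := fun u => if u ∈ D then z u else u
  let t' : V → V := fun u => if u ∈ D then z.symm u else u
  have ht1 : ∀ u ∈ D, t u = z u := fun u hu => if_pos hu
  have ht2 : ∀ u, u ∉ D → t u = u := fun u hu => if_neg hu
  have hmix : ∀ u ∈ D, ∀ w, w ∉ D → (X.Adj (z u) w ↔ X.Adj u w) := by
    intro u hu w hw
    by_cases h : z w = w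
    · conv_lhs => rw [← h]
      exact z.map_rel_iff
    · constructor
      · intro h1
        exact absurd (hD (z u) ((hz u).2 hu) w h1 h) hw
      · intro h1
        exact absurd (hD u hu w h1 h) hw
  refine ⟨{ toFun := t, invFun := t', left_inv := ?_, right_inv := ?_, map_rel_iff' := ?_ }, ht1, ht2⟩
  · intro u
    by_cases hu : u ∈ D
    · have h1 : z u ∈ D := (hz u).2 hu
      simp only [t, t', if_pos hu, if_pos h1, RelIso.symm_apply_apply]
    · simp only [t, t', if_neg hu]
  · intro u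
    by_cases hu : u ∈ D
    · have h1 : z.symm u ∈ D := (hz' u).2 hu
      simp only [t, t', if_pos hu, if_pos h1, RelIso.apply_symm_apply]
    · simp only [t, t', if_neg hu]
  · intro a b
    change X.Adj (t a) (t b) ↔ X.Adj a b
    by_cases ha : a ∈ D <;> by_cases hb : b ∈ D
    · rw [ht1 a ha, ht1 b hb]
      exact z.map_rel_iff
    · rw [ht1 a ha, ht2 b hb]
      exact hmix a ha b hb
    · rw [ht2 a ha, ht1 b hb, X.adj_comm, X.adj_comm a b]
      exact hmix b hb a ha
    · rw [ht2 a ha, ht2 b hb]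

end Pool.Agent.K1H21.EO
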